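import Mathlib

set_option autoImplicit false
set_option linter.unusedSimpArgs false

open MvPolynomial

namespace Pool.Agent.Helper16_WX

universe u v

variable {σ : Type u} {F : Type v} [Field F]

/-- The Lie algebra of derivations of the polynomial ring. -/
abbrev W (σ : Type u) (F : Type v) [Field F] : Type (max u v) :=
  Derivation F (MvPolynomial σ F) (MvPolynomial σ F)

theorem lie_smul' (D E : W σ F) (r : MvPolynomial σ F) : ⁅D, r • E⁆ = D r • E + r • ⁅D, E⁆ := by
  apply Derivation.ext
  intro a
  simp only [Derivation.commutator_apply, Derivation.smul_apply, Derivation.add_apply,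
    smul_eq_mul, Derivation.leibniz]
  ring

theorem smul_lie' (D E : W σ F) (r : MvPolynomial σ F) : ⁅r • D, E⁆ = r • ⁅D, E⁆ - E r • D := by
  apply Derivation.ext
  intro a
  simp only [Derivation.commutator_apply, Derivation.smul_apply, Derivation.sub_apply,
    smul_eq_mul, Derivation.leibniz]
  ring

theorem smul_eq_zero' {r : MvPolynomial σ F} {D : W σ F} (h : r • D = 0) : r = 0 ∨ D = 0 := by
  by_cases hr : r = 0
  · exact Or.inl hr
  · right
    apply Derivation.ext
    intro a
    have := congrArg (fun E : W σ F => E a) h
    simp only [Derivation.smul_apply, smul_eq_mul, Derivation.zero_apply, mul_eq_zero] at this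
    rcases this with h1 | h1
    · exact absurd h1 hr
    · simpa using h1

theorem smul_left_inj' {r s : MvPolynomial σ F} {D : W σ F} (hD : D ≠ 0) (h : r • D = s • D) :
    r = s := by
  have h2 : (r - s) • D = 0 := by
    apply Derivation.ext
    intro a
    have h3 := congrArg (fun E : W σ F => E a) h
    simp only [Derivation.smul_apply, smul_eq_mul] at h3
    simp only [Derivation.smul_apply, smul_eq_mul, sub_mul, h3, sub_self, Derivation.zero_apply]
  rcases smul_eq_zero' h2 with h3 | h3
  · exact sub_eq_zero.1 h3
  · exact absurd h3 hD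

theorem pderiv_ne_zero (p : σ) : (pderiv p : W σ F) ≠ 0 := by
  intro h
  have := congrArg (fun E : W σ F => E (X p)) h
  simp at this

theorem pderiv_X_cases (i j : σ) : (pderiv i (X j : MvPolynomial σ F)) = 0 ∨
    (pderiv i (X j : MvPolynomial σ F)) = 1 := by
  by_cases h : j = i
  · subst h; right; exact pderiv_X_self _
  · left; exact pderiv_X_of_ne h

theorem pderiv_lie (i j : σ) : ⁅(pderiv i : W σ F), (pderiv j : W σ F)⁆ = 0 := by
  apply derivation_ext
  intro k
  rw [Derivation.commutator_apply, Derivation.zero_apply]
  rcases pderiv_X_cases (F := F) i k with h1 | h1 <;>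
    rcases pderiv_X_cases (F := F) j k with h2 | h2 <;> simp [h1, h2]

theorem pderiv_comm (i j : σ) (f : MvPolynomial σ F) :
    pderiv i (pderiv j f) = pderiv j (pderiv i f) := by
  have := congrArg (fun E : W σ F => E f) (pderiv_lie (F := F) i j)
  simp only [Derivation.commutator_apply, Derivation.zero_apply] at this
  exact sub_eq_zero.1 this

/-- Formal integration with respect to the variable `i`. -/
noncomputable def integ (i : σ) : MvPolynomial σ F →ₗ[F] MvPolynomial σ F :=
  (basisMonomials σ F).constr F
    (fun s => monomial (s + Finsupp.single i 1) ((s i + 1 : F)⁻¹))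

theorem integ_monomial (i : σ) (s : σ →₀ ℕ) (a : F) :
    integ i (monomial s a) = monomial (s + Finsupp.single i 1) (a * (s i + 1 : F)⁻¹) := by
  have h : (monomial s a : MvPolynomial σ F) = a • (basisMonomials σ F s) := by
    rw [coe_basisMonomials, smul_monomial]; simp
  rw [h, map_smul, integ, Module.Basis.constr_basis, smul_monomial, smul_eq_mul]

theorem pderiv_integ [CharZero F] (i : σ) (f : MvPolynomial σ F) :
    pderiv i (integ i f) = f := by
  classical
  induction f using MvPolynomial.induction_on' with
  | add p q hp hq => rw [map_add, map_add, hp, hq]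
  | monomial s a =>
    rw [integ_monomial, pderiv_monomial]
    have h : (s i + 1 : F) ≠ 0 := by exact_mod_cast Nat.succ_ne_zero (s i)
    simp [mul_assoc, inv_mul_cancel₀ h]

theorem pderiv_integ_ne [CharZero F] {i p : σ} (hp : p ≠ i) (f : MvPolynomial σ F) :
    pderiv p (integ i f) = integ i (pderiv p f) := by
  classical
  induction f using MvPolynomial.induction_on' with
  | add p q hp hq => rw [map_add, map_add, hp, hq, map_add, map_add]
  | monomial s a =>
    rw [integ_monomial, pderiv_monomial, pderiv_monomial, integ_monomial]
    by_cases h0 : s p = 0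
    · simp [h0, Finsupp.single_apply, hp.symm]
    · have e1 : (s + Finsupp.single i 1 - Finsupp.single p 1) =
          (s - Finsupp.single p 1 + Finsupp.single i 1) := by
        ext k
        simp only [Finsupp.coe_tsub, Finsupp.coe_add, Pi.sub_apply, Pi.add_apply,
          Finsupp.single_apply]
        by_cases hk : p = k
        · subst hk
          simp [hp.symm]
        · simp [hk]
      have e2 : (s - (Finsupp.single p 1 : σ →₀ ℕ)) i = s i := by
        simp [Finsupp.single_apply, hp]
      have e3 : (s + (Finsupp.single i 1 : σ →₀ ℕ)) p = s p := by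
        simp [Finsupp.single_apply, hp.symm]
      rw [e1, e2, e3]
      congr 1
      ring

theorem exists_lie_pderiv [CharZero F] (j : σ) (w : W σ F) :
    ∃ c : W σ F, ⁅(pderiv j : W σ F), c⁆ = w := by
  classical
  refine ⟨mkDerivation F (fun i => integ j (w (X i))), ?_⟩
  apply derivation_ext
  intro i
  rw [Derivation.commutator_apply, mkDerivation_X, pderiv_integ]
  rcases pderiv_X_cases (F := F) j i with h | h <;> simp [h]

/-- A polynomial all of whose partial derivatives vanish is constant. -/
theorem eq_C_of_pderiv [CharZero F] (f : MvPolynomial σ F) (h : ∀ i, pderiv i f = 0) :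
    f = C (coeff 0 f) := by
  classical
  ext m
  rw [coeff_C]
  by_cases hm : 0 = m
  · simp [← hm]
  · rw [if_neg hm]
    have : ∃ i, m i ≠ 0 := by
      by_contra hcon
      push Not at hcon
      exact hm (Finsupp.ext (fun i => by simp [hcon i]))
    obtain ⟨i, hi⟩ := this
    have h2 := coeff_pderiv (i := i) f (m - Finsupp.single i 1)
    rw [h i] at h2
    have h3 : m - Finsupp.single i 1 + Finsupp.single i 1 = m := by
      ext k
      by_cases hk : i = k
      · subst hk
        simp only [Finsupp.coe_tsub, Finsupp.coe_add, Pi.sub_apply, Pi.add_apply,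
          Finsupp.single_eq_same]
        omega
      · simp [Finsupp.single_apply, hk]
    rw [h3, coeff_zero] at h2
    have h4 : (((m - (Finsupp.single i 1 : σ →₀ ℕ)) i : ℕ) : F) + 1 ≠ 0 :=
      Nat.cast_add_one_ne_zero _
    rcases mul_eq_zero.1 h2.symm with h5 | h5
    · exact h5
    · exact absurd h5 h4

theorem totalDegree_pderiv_lt (i : σ) (f : MvPolynomial σ F) (h : pderiv i f ≠ 0) :
    (pderiv i f).totalDegree < f.totalDegree := by
  classical
  obtain ⟨m, hm, hmax⟩ : ∃ m ∈ (pderiv i f).support,
      (pderiv i f).totalDegree = m.sum fun _ e => e := by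
    have hne : (pderiv i f).support.Nonempty := by
      rwa [Finset.nonempty_iff_ne_empty, ne_eq, support_eq_empty]
    obtain ⟨m, hm, hmax⟩ := Finset.exists_mem_eq_sup _ hne (fun s => s.sum fun _ e => e)
    exact ⟨m, hm, hmax⟩
  rw [hmax]
  have h1 : coeff (m + Finsupp.single i 1) f ≠ 0 := by
    intro h2
    rw [mem_support_iff, coeff_pderiv, h2, zero_mul] at hm
    exact hm rfl
  have h2 : (m + Finsupp.single i 1).sum (fun _ e => e) ≤ f.totalDegree :=
    le_totalDegree (mem_support_iff.2 h1)
  rw [Finsupp.sum_add_index' (fun _ => rfl) (fun _ _ _ => rfl),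
    Finsupp.sum_single_index rfl] at h2
  omega

end Pool.Agent.Helper16_WX
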