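import Pool.Agent.Helper16_WX.Main

set_option autoImplicit false
set_option linter.unusedSimpArgs false

open MvPolynomial

namespace Pool.Agent.Helper16_WX

universe u v

variable {σ : Type u} {F : Type v} [Field F] {ρ : W σ F ≃ₗ⁅F⁆ W σ F}

theorem lie_Xp_smul {q j : σ} (hj : j ≠ q) {f : MvPolynomial σ F} (hf : pderiv q f = 0) :
    ⁅(X q : MvPolynomial σ F) • (pderiv q : W σ F), f • (pderiv j : W σ F)⁆ = 0 := by
  rw [lie_smul', smul_lie', pderiv_lie, pderiv_X_of_ne hj.symm, Derivation.smul_apply, hf]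
  apply Derivation.ext
  intro a
  simp

theorem wit_indep [CharZero F] (hgood : ∀ p, Good ρ p) {i p q : σ} {y : MvPolynomial σ F}
    (hp : Wit ρ p y (X i)) (hqi : q ≠ i) : Wit ρ q y (X i) := by
  by_cases hqp : q = p
  · rw [hqp]; exact hp
  · refine ⟨pderiv_X_of_ne hqi.symm, ?_⟩
    have h1 : ⁅(X p : MvPolynomial σ F) • (pderiv p : W σ F), (pderiv q : W σ F)⁆ = 0 := by
      have := lie_Xp_smul (F := F) (q := p) (j := q) hqp (f := 1) (by simp)
      rwa [one_smul] at this
    exact (step4 (i := q) hqp (hgood p) hp (pderiv_lie p q) h1).symm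

theorem exists_theta [CharZero F] [Infinite σ] (hgood : ∀ p, Good ρ p) :
    ∃ y : σ → MvPolynomial σ F, ∀ (i : σ) (f : MvPolynomial σ F) (j : σ),
      ρ ((X i * f) • (pderiv j : W σ F)) = y i • ρ (f • (pderiv j : W σ F)) := by
  classical
  have hex : ∀ i : σ, ∃ y, ∃ p, Wit ρ p y (X i) := by
    intro i
    obtain ⟨p, hp⟩ := Infinite.exists_notMem_finset ({i} : Finset σ)
    rw [Finset.mem_singleton] at hp
    obtain ⟨s, hs⟩ := hgood p (X i) (pderiv_X_of_ne (Ne.symm hp))
    exact ⟨s, p, hs⟩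
  choose y p hy using hex
  refine ⟨y, fun i f j => ?_⟩
  obtain ⟨q, hq⟩ := Infinite.exists_notMem_finset (insert i (insert j f.vars))
  simp only [Finset.mem_insert, not_or] at hq
  obtain ⟨hqi, hqj, hqf⟩ := hq
  have hf : pderiv q f = 0 := pderiv_eq_zero_of_notMem_vars hqf
  have hw := wit_indep hgood (hy i) hqi
  have := step4 (i := j) (Ne.symm hqj) (hgood q) hw (D := f • (pderiv j : W σ F))
    (comm_smul_pderiv hf) (lie_Xp_smul (Ne.symm hqj) hf)
  rw [← this, mul_smul]

theorem theta_smul_pderiv {y : σ → MvPolynomial σ F}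
    (hy : ∀ (i : σ) (f : MvPolynomial σ F) (j : σ),
      ρ ((X i * f) • (pderiv j : W σ F)) = y i • ρ (f • (pderiv j : W σ F)))
    (r : MvPolynomial σ F) (j : σ) :
    ρ (r • (pderiv j : W σ F)) = aeval y r • ρ (pderiv j) := by
  induction r using MvPolynomial.induction_on with
  | C a => rw [aeval_C, algebraMap_eq, C_smul', C_smul', map_smul]
  | add p q hp hq => rw [add_smul, map_add, hp, hq, map_add, add_smul]
  | mul_X p n hp => rw [mul_comm, hy, hp, map_mul, aeval_X, mul_smul]

theorem rho_pderiv_y {y : σ → MvPolynomial σ F}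
    (hy : ∀ (i : σ) (f : MvPolynomial σ F) (j : σ),
      ρ ((X i * f) • (pderiv j : W σ F)) = y i • ρ (f • (pderiv j : W σ F)))
    (a i : σ) : ρ (pderiv a) (y i) = pderiv a (X i : MvPolynomial σ F) := by
  have h1 : ρ ⁅(pderiv a : W σ F), (X i : MvPolynomial σ F) • (pderiv a : W σ F)⁆ =
      (pderiv a (X i : MvPolynomial σ F)) • ρ (pderiv a) := by
    rw [lie_smul', lie_self, smul_zero, add_zero, theta_smul_pderiv hy]
    rcases pderiv_X_cases (F := F) a i with h | h <;> rw [h] <;> simp
  rw [rho_lie, theta_smul_pderiv hy, aeval_X, lie_smul', lie_self, smul_zero, add_zero] at h1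
  exact smul_left_inj' (rho_ne_zero ρ a) h1

theorem exists_err [CharZero F] {y : σ → MvPolynomial σ F}
    (hy : ∀ (i : σ) (f : MvPolynomial σ F) (j : σ),
      ρ ((X i * f) • (pderiv j : W σ F)) = y i • ρ (f • (pderiv j : W σ F)))
    (r : MvPolynomial σ F) (w : W σ F) (a : σ) :
    ∃ e : MvPolynomial σ F, ρ (r • w) = aeval y r • ρ w + e • ρ (pderiv a) := by
  obtain ⟨c, hc⟩ := exists_lie_pderiv a w
  have h1 := smul_lie' (pderiv a : W σ F) c r
  rw [hc] at h1
  have h2 := congrArg ρ h1
  rw [rho_lie, theta_smul_pderiv hy, smul_lie', ← rho_lie, hc, map_sub,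
    theta_smul_pderiv hy] at h2
  refine ⟨aeval y (c r) - ρ c (aeval y r), ?_⟩
  rw [sub_smul'']
  have h3 : ρ (r • w) = (aeval y r • ρ w - (ρ c) ((aeval y) r) • ρ (pderiv a)) +
      (aeval y) (c r) • ρ (pderiv a) := by
    rw [h2]
    abel
  rw [h3]
  abel

theorem semilinear_of_good [CharZero F] [Infinite σ] (hgood : ∀ p, Good ρ p) :
    ∃ Θ : MvPolynomial σ F →ₐ[F] MvPolynomial σ F, ∀ (r : MvPolynomial σ F) (D : W σ F),
      ρ (r • D) = Θ r • ρ D := by
  obtain ⟨y, hy⟩ := exists_theta hgood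
  refine ⟨aeval y, fun r w => ?_⟩
  obtain ⟨a, b, hab⟩ := exists_pair_ne σ
  obtain ⟨e, he⟩ := exists_err hy r w a
  obtain ⟨e', he'⟩ := exists_err hy r w b
  rw [he] at he'
  have h1 := add_left_cancel he'
  have h2 := congrArg (fun E : W σ F => E (y a)) h1
  simp only [Derivation.smul_apply, smul_eq_mul, rho_pderiv_y hy, pderiv_X_self,
    pderiv_X_of_ne hab, mul_one, mul_zero] at h2
  rw [he, h2]
  have : (0 : MvPolynomial σ F) • ρ (pderiv a) = 0 := zero_smul _ _
  rw [this, add_zero]

/-! ### Change of coordinates -/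

/-- Conjugation of a derivation by an algebra automorphism. -/
noncomputable def conjFun (φ : MvPolynomial σ F ≃ₐ[F] MvPolynomial σ F) (D : W σ F) : W σ F :=
  Derivation.mk' ((φ.toLinearMap).comp ((D : MvPolynomial σ F →ₗ[F] MvPolynomial σ F).comp
    φ.symm.toLinearMap)) (by
      intro a b
      simp [Derivation.leibniz])

theorem conjFun_apply (φ : MvPolynomial σ F ≃ₐ[F] MvPolynomial σ F) (D : W σ F)
    (a : MvPolynomial σ F) : conjFun φ D a = φ (D (φ.symm a)) := rfl

/-- Conjugation as a Lie algebra automorphism. -/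
noncomputable def conj (φ : MvPolynomial σ F ≃ₐ[F] MvPolynomial σ F) : W σ F ≃ₗ⁅F⁆ W σ F where
  toFun := conjFun φ
  map_add' := by
    intro D E; apply Derivation.ext; intro a; simp [conjFun_apply]
  map_smul' := by
    intro c D; apply Derivation.ext; intro a; simp [conjFun_apply]
  map_lie' := by
    intro D E; apply Derivation.ext; intro a
    simp [conjFun_apply, Derivation.commutator_apply]
  invFun := conjFun φ.symm
  left_inv := by
    intro D; apply Derivation.ext; intro a; simp [conjFun_apply]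
  right_inv := by
    intro D; apply Derivation.ext; intro a; simp [conjFun_apply]

theorem conj_apply (φ : MvPolynomial σ F ≃ₐ[F] MvPolynomial σ F) (D : W σ F)
    (a : MvPolynomial σ F) : conj φ D a = φ (D (φ.symm a)) := rfl

/-- The derivation with constant coefficients `c`. -/
noncomputable def constDer (c : σ → F) : W σ F := mkDerivation F (fun i => C (c i))

theorem exists_coord (c : σ → F) (p : σ) (hp : c p ≠ 0) :
    ∃ φ : MvPolynomial σ F ≃ₐ[F] MvPolynomial σ F, conj φ (pderiv p) = constDer c := by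
  classical
  set u : σ → MvPolynomial σ F := fun i => if i = p then C (c p)⁻¹ * X p
    else X i - C (c i * (c p)⁻¹) * X p with hu
  set v : σ → MvPolynomial σ F := fun i => if i = p then C (c p) * X p
    else X i + C (c i) * X p with hv
  have hup : u p = C (c p)⁻¹ * X p := by simp [hu]
  have hvp : v p = C (c p) * X p := by simp [hv]
  have hui : ∀ i, i ≠ p → u i = X i - C (c i * (c p)⁻¹) * X p := by
    intro i hi; simp [hu, hi]
  have hvi : ∀ i, i ≠ p → v i = X i + C (c i) * X p := by
    intro i hi; simp [hv, hi]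
  have h1 : (aeval u : MvPolynomial σ F →ₐ[F] MvPolynomial σ F).comp (aeval v) =
      AlgHom.id F _ := by
    apply algHom_ext
    intro i
    rw [AlgHom.comp_apply, aeval_X, AlgHom.id_apply]
    by_cases hi : i = p
    · subst hi
      rw [hvp, map_mul, aeval_C, aeval_X, hup, algebraMap_eq, ← mul_assoc, ← C_mul,
        mul_inv_cancel₀ hp, C_1, one_mul]
    · rw [hvi i hi, map_add, map_mul, aeval_C, aeval_X, aeval_X, hup, hui i hi, algebraMap_eq,
        C_mul]
      ring
  have h2 : (aeval v : MvPolynomial σ F →ₐ[F] MvPolynomial σ F).comp (aeval u) =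
      AlgHom.id F _ := by
    apply algHom_ext
    intro i
    rw [AlgHom.comp_apply, aeval_X, AlgHom.id_apply]
    by_cases hi : i = p
    · subst hi
      rw [hup, map_mul, aeval_C, aeval_X, hvp, algebraMap_eq, ← mul_assoc, ← C_mul,
        inv_mul_cancel₀ hp, C_1, one_mul]
    · rw [hui i hi, map_sub, map_mul, aeval_C, aeval_X, aeval_X, hvp, hvi i hi, algebraMap_eq,
        ← mul_assoc, ← C_mul, mul_assoc (c i), inv_mul_cancel₀ hp, mul_one]
      ring
  refine ⟨AlgEquiv.ofAlgHom (aeval u) (aeval v) h1 h2, ?_⟩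
  apply derivation_ext
  intro i
  rw [conj_apply, constDer, mkDerivation_X]
  have h3 : (AlgEquiv.ofAlgHom (aeval u) (aeval v) h1 h2).symm (X i) = v i := by
    change (aeval v) (X i) = v i
    rw [aeval_X]
  rw [h3]
  have h4 : pderiv p (v i) = C (c i) := by
    by_cases hi : i = p
    · subst hi; rw [hvp]; simp
    · rw [hvi i hi]; simp [pderiv_X_of_ne hi]
  rw [h4]
  change (aeval u) (C (c i)) = C (c i)
  rw [aeval_C, algebraMap_eq]

open Cardinal in
/-- The cardinality argument. -/
theorem not_injective_of_infinite [Infinite σ] (L : (σ → F) →ₗ[F] MvPolynomial σ F) :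
    ¬ Function.Injective L := by
  intro h
  have h1 := LinearMap.rank_le_of_injective L h
  rw [rank_fun_infinite, MvPolynomial.rank_eq_lift, mk_finsupp_nat, mk_arrow] at h1
  have h2 : max #σ ℵ₀ = #σ := max_eq_left (aleph0_le_mk σ)
  rw [h2] at h1
  have h3 : lift.{v} #σ < lift.{u} #F ^ lift.{v} #σ :=
    cantor' _ (by rw [one_lt_lift_iff, one_lt_iff_nontrivial]; infer_instance)
  exact absurd h3 (not_lt.2 h1)

theorem exists_const (ρ : W σ F ≃ₗ⁅F⁆ W σ F) [Infinite σ] (g : MvPolynomial σ F) :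
    ∃ c : σ → F, c ≠ 0 ∧ ρ (constDer c) g = 0 := by
  let L : (σ → F) →ₗ[F] MvPolynomial σ F :=
    { toFun := fun c => ρ (constDer c) g
      map_add' := by
        intro c d
        have : constDer (c + d) = constDer c + constDer d := by
          apply derivation_ext; intro i; simp [constDer]
        rw [this, map_add, Derivation.add_apply]
      map_smul' := by
        intro a c
        have : constDer (a • c) = a • constDer c := by
          apply derivation_ext; intro i; simp [constDer, smul_eq_C_mul]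
        rw [this, map_smul, Derivation.smul_apply, RingHom.id_apply] }
  have h := not_injective_of_infinite L
  rw [injective_iff_map_eq_zero] at h
  push Not at h
  obtain ⟨c, hc1, hc2⟩ := h
  exact ⟨c, hc2, hc1⟩

theorem semilinear [CharZero F] [Infinite σ] (ρ : W σ F ≃ₗ⁅F⁆ W σ F) :
    ∃ Θ : MvPolynomial σ F →ₐ[F] MvPolynomial σ F, ∀ (r : MvPolynomial σ F) (D : W σ F),
      ρ (r • D) = Θ r • ρ D := by
  classical
  obtain ⟨i₀⟩ : Nonempty σ := inferInstance
  obtain ⟨c, hc, hcg⟩ := exists_const ρ (X i₀ : MvPolynomial σ F)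
  obtain ⟨p, hp⟩ : ∃ p, c p ≠ 0 := by
    by_contra hcon
    push Not at hcon
    exact hc (funext hcon)
  obtain ⟨φ, hφ⟩ := exists_coord c p hp
  let ρ₁ : W σ F ≃ₗ⁅F⁆ W σ F := (conj φ).trans ρ
  have hρ₁ : ∀ D, ρ₁ D = ρ (conj φ D) := fun D => rfl
  have hgood : Good ρ₁ p := by
    refine good_of (X i₀) ?_ ?_
    · rw [hρ₁, hφ]; exact hcg
    · intro a ha
      have h2 := congrArg (pderiv i₀) ha
      simp at h2
  have hall : ∀ q, Good ρ₁ q := by
    intro q
    obtain ⟨l, hl⟩ := Infinite.exists_notMem_finset ({p, q} : Finset σ)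
    simp only [Finset.mem_insert, Finset.mem_singleton, not_or] at hl
    exact good_all hgood q l hl.1 hl.2
  obtain ⟨Θ, hΘ⟩ := semilinear_of_good hall
  refine ⟨Θ.comp (φ.symm : MvPolynomial σ F →ₐ[F] MvPolynomial σ F), fun r D => ?_⟩
  have h1 : D = conj φ (conj φ.symm D) := by
    apply Derivation.ext; intro a; simp [conj_apply]
  have h2 : r • D = conj φ (φ.symm r • conj φ.symm D) := by
    apply Derivation.ext; intro a; simp [conj_apply]
  rw [h2, ← hρ₁, hΘ, hρ₁, ← h1]
  rfl

/-- Every automorphism of the Lie algebra of derivations of a polynomial algebra in infinitely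
many variables over a field of characteristic `0` is conjugation by an algebra automorphism. -/
theorem aut_eq_conj [CharZero F] [Infinite σ] (ψ : W σ F ≃ₗ⁅F⁆ W σ F) :
    ∃ φ : MvPolynomial σ F ≃ₐ[F] MvPolynomial σ F,
      ∀ (D : W σ F) (f : MvPolynomial σ F), ψ D f = φ (D (φ.symm f)) := by
  obtain ⟨Φ, hΦ⟩ := semilinear ψ
  obtain ⟨Θ, hΘ⟩ := semilinear ψ.symm
  obtain ⟨p⟩ : Nonempty σ := inferInstance
  have h1 : Φ.comp Θ = AlgHom.id F _ := by
    apply AlgHom.ext
    intro r
    have e1 : ψ (ψ.symm (r • ψ (pderiv p))) = Φ (Θ r) • ψ (pderiv p) := by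
      rw [hΘ, hΦ, LieEquiv.apply_symm_apply]
    rw [LieEquiv.apply_symm_apply] at e1
    exact (smul_left_inj' (rho_ne_zero ψ p) e1).symm
  have h2 : Θ.comp Φ = AlgHom.id F _ := by
    apply AlgHom.ext
    intro r
    have e1 : ψ.symm (ψ (r • (pderiv p : W σ F))) = Θ (Φ r) • (pderiv p : W σ F) := by
      rw [hΦ, hΘ, LieEquiv.symm_apply_apply]
    rw [LieEquiv.symm_apply_apply] at e1
    exact (smul_left_inj' (pderiv_ne_zero p) e1).symm
  refine ⟨AlgEquiv.ofAlgHom Φ Θ h1 h2, fun D f => ?_⟩
  have key : ∀ r, ψ D (Φ r) = Φ (D r) := by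
    intro r
    have e1 := congrArg ψ (lie_smul' D (pderiv p) r)
    rw [rho_lie, hΦ, map_add, hΦ, hΦ, rho_lie, lie_smul'] at e1
    exact smul_left_inj' (rho_ne_zero ψ p) (add_right_cancel e1)
  have h3 : f = Φ (Θ f) := by
    have := congrArg (fun g : MvPolynomial σ F →ₐ[F] MvPolynomial σ F => g f) h1
    exact this.symm
  conv_lhs => rw [h3, key]
  rfl

end Pool.Agent.Helper16_WX
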