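import Pool.Agent.Helper16_WX.Basic

set_option autoImplicit false
set_option linter.unusedSimpArgs false

open MvPolynomial

namespace Pool.Agent.Helper16_WX

universe u v

variable {σ : Type u} {F : Type v} [Field F]

/-- The commutator of a derivation commuting with `∂_p` with `m • ∂_p`. -/
theorem lie_smul_pderiv {p : σ} {b : W σ F} (hb : ⁅(pderiv p : W σ F), b⁆ = 0)
    (m : MvPolynomial σ F) : ⁅b, m • (pderiv p : W σ F)⁆ = b m • pderiv p := by
  rw [lie_smul', ← lie_skew, hb, neg_zero, smul_zero, add_zero]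

theorem pderiv_apply_of_comm {p : σ} {b : W σ F} (hb : ⁅(pderiv p : W σ F), b⁆ = 0)
    (m : MvPolynomial σ F) : pderiv p (b m) = b (pderiv p m) := by
  have := congrArg (fun E : W σ F => E m) hb
  simp only [Derivation.commutator_apply, Derivation.zero_apply] at this
  exact sub_eq_zero.1 this

/-- `j` kills all `x_i`, `i ≠ p`: then it is a multiple of `∂_p`. -/
theorem eq_smul_pderiv {p : σ} {j : W σ F} (h : ∀ i, i ≠ p → j (X i) = 0) :
    j = j (X p) • (pderiv p : W σ F) := by
  apply derivation_ext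
  intro i
  rw [Derivation.smul_apply, smul_eq_mul]
  by_cases hi : i = p
  · subst hi; simp
  · rw [h i hi, pderiv_X_of_ne hi, mul_zero]

variable (ρ : W σ F ≃ₗ⁅F⁆ W σ F)

theorem rho_inj {D E : W σ F} (h : ρ D = ρ E) : D = E := ρ.injective h

theorem sub_smul'' (r s : MvPolynomial σ F) (D : W σ F) : (r - s) • D = r • D - s • D := by
  apply Derivation.ext
  intro a
  simp only [Derivation.smul_apply, smul_eq_mul, sub_mul, Derivation.sub_apply]

theorem lie_sub'' (D E E' : W σ F) : ⁅D, E - E'⁆ = ⁅D, E⁆ - ⁅D, E'⁆ := by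
  apply Derivation.ext
  intro a
  simp only [Derivation.commutator_apply, Derivation.sub_apply, map_sub]
  ring

theorem lie_neg'' (D E : W σ F) : ⁅D, -E⁆ = -⁅D, E⁆ := by
  apply Derivation.ext
  intro a
  simp only [Derivation.commutator_apply, Derivation.neg_apply, map_neg]
  ring

theorem rho_ne_zero (p : σ) : ρ (pderiv p) ≠ 0 := by
  intro h
  have : (pderiv p : W σ F) = 0 := by
    apply rho_inj ρ
    rw [h, map_zero]
  exact pderiv_ne_zero p this

theorem exists_rho (D : W σ F) : ∃ E, ρ E = D := ρ.surjective D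

theorem rho_lie (D E : W σ F) : ρ ⁅D, E⁆ = ⁅ρ D, ρ E⁆ := LieEquiv.map_lie ρ D E

/-- Step 1: the abelian ideal argument. -/
theorem step1 [CharZero F] (p : σ) (s : MvPolynomial σ F) (hs : ρ (pderiv p) s = 0) :
    ∃ k : MvPolynomial σ F, pderiv p k = 0 ∧ s • ρ (pderiv p) = ρ (k • (pderiv p : W σ F)) := by
  set A := ρ (pderiv p) with hA
  obtain ⟨j, hj⟩ := exists_rho ρ (s • A)
  have hjp : ⁅(pderiv p : W σ F), j⁆ = 0 := by
    apply rho_inj ρ
    rw [rho_lie, hj, ← hA, lie_smul', hs, lie_self, map_zero]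
    simp
  have key : ∀ m, pderiv p m = 0 → j (j m) = 0 := by
    intro m hm
    have e1 : ρ (j m • (pderiv p : W σ F)) = -((ρ (m • (pderiv p : W σ F)) s) • A) := by
      rw [← lie_smul_pderiv hjp, rho_lie, hj, smul_lie', hA, ← rho_lie, lie_smul', lie_self, hm]
      simp
    have e2 : A ((ρ (m • (pderiv p : W σ F))) s) = 0 := by
      have e3 : ⁅A, ρ (m • (pderiv p : W σ F))⁆ = 0 := by
        rw [hA, ← rho_lie, lie_smul', lie_self, hm]
        simp
      have e4 := congrArg (fun E : W σ F => E s) e3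
      simp only [Derivation.commutator_apply, Derivation.zero_apply] at e4
      rw [hs, map_zero, sub_zero] at e4
      exact e4
    have e5 : j (j m) • (pderiv p : W σ F) = 0 := by
      apply rho_inj ρ
      rw [← lie_smul_pderiv hjp, rho_lie, hj, e1, map_zero, lie_neg'', lie_smul', smul_lie',
        lie_self]
      simp [e2, hs]
    rcases smul_eq_zero' e5 with h | h
    · exact h
    · exact absurd h (pderiv_ne_zero p)
  have key2 : ∀ m, pderiv p m = 0 → j m = 0 := by
    intro m hm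
    have h1 := key m hm
    have h2 := key (m * m) (by simp [hm])
    simp only [Derivation.leibniz, smul_eq_mul, map_add, h1, mul_zero, add_zero, zero_add] at h2
    have h3 : (2 : MvPolynomial σ F) * (j m * j m) = 0 := by
      rw [← h2]; ring
    have h4 : (2 : MvPolynomial σ F) ≠ 0 := two_ne_zero
    rcases mul_eq_zero.1 h3 with h | h
    · exact absurd h h4
    · exact mul_self_eq_zero.1 h
  have hj2 := eq_smul_pderiv (p := p) (j := j) (fun i hi => key2 _ (pderiv_X_of_ne hi))
  refine ⟨j (X p), ?_, ?_⟩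
  · rw [pderiv_apply_of_comm hjp]; simp
  · rw [← hj2, hj]

/-- The pair `(s, k)` is matched at `p`. -/
def Wit (p : σ) (s k : MvPolynomial σ F) : Prop :=
  pderiv p k = 0 ∧ s • ρ (pderiv p) = ρ (k • (pderiv p : W σ F))

variable {ρ}

theorem Wit.ker {p : σ} {s k : MvPolynomial σ F} (h : Wit ρ p s k) : ρ (pderiv p) s = 0 := by
  have h1 : ⁅ρ (pderiv p), s • ρ (pderiv p)⁆ = 0 := by
    rw [h.2, ← rho_lie, lie_smul', h.1, lie_self]
    simp
  rw [lie_smul', lie_self, smul_zero, add_zero] at h1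
  rcases smul_eq_zero' h1 with h | h
  · exact h
  · exact absurd h (rho_ne_zero ρ p)

theorem Wit.unique {p : σ} {s s' k : MvPolynomial σ F} (h : Wit ρ p s k) (h' : Wit ρ p s' k) :
    s = s' :=
  smul_left_inj' (rho_ne_zero ρ p) (h.2.trans h'.2.symm)

theorem Wit.unique' {p : σ} {s k k' : MvPolynomial σ F} (h : Wit ρ p s k) (h' : Wit ρ p s k') :
    k = k' := by
  have := h.2.symm.trans h'.2
  exact smul_left_inj' (pderiv_ne_zero p) (rho_inj ρ this)

theorem Wit.deriv {p : σ} {s k : MvPolynomial σ F} (h : Wit ρ p s k) {b : W σ F}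
    (hb : ⁅(pderiv p : W σ F), b⁆ = 0) : Wit ρ p (ρ b s) (b k) := by
  refine ⟨by rw [pderiv_apply_of_comm hb, h.1, map_zero], ?_⟩
  have h2 : ⁅ρ b, ρ (pderiv p)⁆ = 0 := by
    rw [← rho_lie, ← lie_skew, hb, neg_zero, map_zero]
  rw [← lie_smul_pderiv hb, rho_lie, ← h.2, lie_smul', h2, smul_zero, add_zero]

theorem Wit.add {p : σ} {s k s' k' : MvPolynomial σ F} (h : Wit ρ p s k) (h' : Wit ρ p s' k') :
    Wit ρ p (s + s') (k + k') := by
  refine ⟨by rw [map_add, h.1, h'.1, add_zero], ?_⟩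
  rw [add_smul, h.2, h'.2, add_smul, map_add]

theorem Wit.sub {p : σ} {s k s' k' : MvPolynomial σ F} (h : Wit ρ p s k) (h' : Wit ρ p s' k') :
    Wit ρ p (s - s') (k - k') := by
  refine ⟨by rw [map_sub, h.1, h'.1, sub_zero], ?_⟩
  rw [sub_smul'', h.2, h'.2, sub_smul'', map_sub]

theorem wit_one (p : σ) : Wit ρ p 1 1 := ⟨by simp, by simp⟩

theorem C_smul' (c : F) (D : W σ F) : (C c : MvPolynomial σ F) • D = c • D := by
  apply Derivation.ext
  intro a
  rw [Derivation.smul_apply, Derivation.smul_apply, smul_eq_mul, C_mul']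

theorem wit_C (p : σ) (c : F) : Wit ρ p (C c) (C c) := by
  refine ⟨by simp, ?_⟩
  rw [C_smul', C_smul', map_smul]

variable (ρ)
/-- `p` is good if every element of `ker ∂_p` is matched. -/
def Good (p : σ) : Prop := ∀ k, pderiv p k = 0 → ∃ s, Wit ρ p s k
variable {ρ}

theorem comm_smul_pderiv {p i : σ} {h : MvPolynomial σ F} (hh : pderiv p h = 0) :
    ⁅(pderiv p : W σ F), h • (pderiv i : W σ F)⁆ = 0 := by
  rw [lie_smul', hh, pderiv_lie, zero_smul, smul_zero, add_zero]

/-- ideal part of the submodule lemma -/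
theorem good_aux [CharZero F] {p : σ} (n : ℕ) : ∀ g : MvPolynomial σ F, g.totalDegree ≤ n →
    pderiv p g = 0 → g ≠ 0 → (∀ h, pderiv p h = 0 → ∃ s, Wit ρ p s (h * g)) → Good ρ p := by
  induction n with
  | zero =>
    intro g hg hpg hg0 H
    have hc : g = C (coeff 0 g) := totalDegree_eq_zero_iff_eq_C.1 (Nat.le_zero.1 hg)
    classical
    intro k hk
    have hc0 : coeff 0 g ≠ 0 := by
      intro h; rw [h, C_0] at hc; exact hg0 hc
    obtain ⟨s, hs⟩ := H (k * C (coeff 0 g)⁻¹) (by simp [hk])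
    refine ⟨s, ?_⟩
    have : k * C (coeff 0 g)⁻¹ * g = k := by
      conv_lhs => rw [hc]
      rw [coeff_C, if_pos rfl, mul_assoc, ← C_mul, inv_mul_cancel₀ hc0, C_1, mul_one]
    rwa [this] at hs
  | succ n ih =>
    intro g hg hpg hg0 H
    by_cases hall : ∀ i, pderiv i g = 0
    · have hc := eq_C_of_pderiv g hall
      refine ih g ?_ hpg hg0 H
      rw [hc, totalDegree_C]
      exact Nat.zero_le _
    · push Not at hall
      obtain ⟨i, hi⟩ := hall
      refine ih (pderiv i g) ?_ ?_ hi ?_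
      · have := totalDegree_pderiv_lt i g hi
        omega
      · rw [pderiv_comm, hpg, map_zero]
      · intro h hh
        obtain ⟨s, hs⟩ := H h hh
        obtain ⟨s', hs'⟩ := H (pderiv i h) (by rw [pderiv_comm, hh, map_zero])
        have h1 := (hs.deriv (b := pderiv i) (pderiv_lie p i)).sub hs'
        refine ⟨ρ (pderiv i) s - s', ?_⟩
        have h2 : h * pderiv i g = pderiv i (h * g) - pderiv i h * g := by
          rw [Derivation.leibniz, smul_eq_mul, smul_eq_mul]
          ring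
        rw [h2]
        exact h1

theorem good_of [CharZero F] {p : σ} (g : MvPolynomial σ F) (hg : ρ (pderiv p) g = 0)
    (hC : ∀ c, g ≠ C c) : Good ρ p := by
  obtain ⟨k, hk1, hk2⟩ := step1 ρ p g hg
  have hw : Wit ρ p g k := ⟨hk1, hk2⟩
  have hex : ∃ i, pderiv i k ≠ 0 := by
    by_contra hcon
    push Not at hcon
    have hkc := eq_C_of_pderiv k hcon
    rw [hkc] at hw
    exact hC _ (hw.unique (wit_C p _))
  obtain ⟨i, hi⟩ := hex
  refine good_aux (p := p) _ (pderiv i k) le_rfl (by rw [pderiv_comm, hk1, map_zero]) hi ?_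
  intro h hh
  have h3 := hw.deriv (b := h • pderiv i) (comm_smul_pderiv hh)
  rw [Derivation.smul_apply, smul_eq_mul] at h3
  exact ⟨_, h3⟩

theorem good_all [CharZero F] {p : σ} (hp : Good ρ p) (q : σ) (l : σ) (hlp : l ≠ p)
    (hlq : l ≠ q) : Good ρ q := by
  obtain ⟨s, hs⟩ := hp (X l) (pderiv_X_of_ne hlp)
  refine good_of s ?_ ?_
  · have h1 := hs.deriv (b := pderiv q) (pderiv_lie p q)
    rw [pderiv_X_of_ne hlq] at h1
    have h2 := wit_C (ρ := ρ) p 0
    rw [C_0] at h2
    exact h1.unique h2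
  · intro c hc
    rw [hc] at hs
    have h1 := hs.unique' (wit_C p c)
    have h2 := congrArg (pderiv l) h1
    simp at h2

/-- Step 3, first part -/
theorem step3a [CharZero F] {p : σ} {s h : MvPolynomial σ F} (hs : Wit ρ p s h) {D B : W σ F}
    (hD : ⁅(pderiv p : W σ F), D⁆ = 0) (hB : ρ B = s • ρ D) : ⁅(pderiv p : W σ F), B⁆ = 0 := by
  apply rho_inj ρ
  rw [rho_lie, hB, lie_smul', hs.ker, ← rho_lie, hD, map_zero]
  simp

theorem step3b [CharZero F] {p : σ} {s h : MvPolynomial σ F} (hs : Wit ρ p s h) {D B : W σ F}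
    (hD : ⁅(pderiv p : W σ F), D⁆ = 0) (hB : ρ B = s • ρ D) {t m : MvPolynomial σ F}
    (ht : Wit ρ p t m) :
    ρ (B m • (pderiv p : W σ F)) = s • ρ (D m • (pderiv p : W σ F)) := by
  have hBp := step3a hs hD hB
  have h2 := (ht.deriv hD).2
  have h3 : ⁅s • ρ D, ρ (pderiv p)⁆ = 0 := by
    rw [← hB, ← rho_lie, ← lie_skew, hBp, neg_zero, map_zero]
  rw [← lie_smul_pderiv hBp, rho_lie, hB, ← ht.2, lie_smul', h3, ← h2]
  simp only [Derivation.smul_apply, smul_eq_mul, smul_zero, add_zero, mul_smul]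

/-- Step 3, multiplicativity -/
theorem step3c [CharZero F] {p i : σ} (hip : i ≠ p) (hp : Good ρ p) {s h : MvPolynomial σ F}
    (hs : Wit ρ p s h) {f : MvPolynomial σ F} (hf : pderiv p f = 0) :
    ρ ((h * f) • (pderiv p : W σ F)) = s • ρ (f • (pderiv p : W σ F)) := by
  obtain ⟨B, hB⟩ := exists_rho ρ (s • ρ (pderiv i))
  have hBp := step3a hs (pderiv_lie p i) hB
  -- `B (X j) = δ_ij h`
  have hBX : ∀ j, j ≠ p → B (X j) = h * pderiv i (X j) := by
    intro j hj
    obtain ⟨t, ht⟩ := hp (X j) (pderiv_X_of_ne hj)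
    have h1 := step3b hs (pderiv_lie p i) hB ht
    have h2 : ρ (B (X j) • (pderiv p : W σ F)) =
        ρ ((h * pderiv i (X j)) • (pderiv p : W σ F)) := by
      rw [h1]
      rcases pderiv_X_cases (F := F) i j with h3 | h3
      · rw [h3]; simp
      · rw [h3, one_smul, mul_one, hs.2]
    exact smul_left_inj' (pderiv_ne_zero p) (rho_inj ρ h2)
  -- hence `B m = h * ∂_i m` for `m ∈ ker ∂_p`
  have hBm : ∀ m, pderiv p m = 0 → B m = h * pderiv i m := by
    intro m hm
    have h4 : B - h • (pderiv i : W σ F) =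
        (B - h • (pderiv i : W σ F)) (X p) • (pderiv p : W σ F) := by
      apply eq_smul_pderiv
      intro j hj
      rw [Derivation.sub_apply, hBX j hj, Derivation.smul_apply, smul_eq_mul, sub_self]
    have h5 := congrArg (fun E : W σ F => E m) h4
    simp only [Derivation.sub_apply, Derivation.smul_apply, smul_eq_mul, hm, mul_zero] at h5
    exact sub_eq_zero.1 h5
  have hm : pderiv p (integ i f) = 0 := by
    rw [pderiv_integ_ne hip.symm, hf, map_zero]
  obtain ⟨t, ht⟩ := hp _ hm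
  have h6 := step3b hs (pderiv_lie p i) hB ht
  rw [hBm _ hm, pderiv_integ] at h6
  exact h6

theorem lie_Xpderiv_smul {p : σ} {κ : MvPolynomial σ F} (hκ : pderiv p κ = 0) :
    ⁅(X p : MvPolynomial σ F) • (pderiv p : W σ F), κ • (pderiv p : W σ F)⁆ =
      - (κ • (pderiv p : W σ F)) := by
  rw [lie_smul', smul_lie', lie_self, Derivation.smul_apply, hκ, pderiv_X_self]
  simp

/-- Step 3 and 4: scalars act the same way -/
theorem step4 [CharZero F] {p i : σ} (hip : i ≠ p) (hp : Good ρ p) {s h : MvPolynomial σ F}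
    (hs : Wit ρ p s h) {D : W σ F} (hD : ⁅(pderiv p : W σ F), D⁆ = 0)
    (hD0 : ⁅(X p : MvPolynomial σ F) • (pderiv p : W σ F), D⁆ = 0) :
    ρ (h • D) = s • ρ D := by
  obtain ⟨B, hB⟩ := exists_rho ρ (s • ρ D)
  have hBp := step3a hs hD hB
  have hBm : ∀ m, pderiv p m = 0 → B m = h * D m := by
    intro m hm
    obtain ⟨t, ht⟩ := hp m hm
    have h1 := step3b hs hD hB ht
    have hDm : pderiv p (D m) = 0 := by rw [pderiv_apply_of_comm hD, hm, map_zero]
    rw [← step3c hip hp hs hDm] at h1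
    exact smul_left_inj' (pderiv_ne_zero p) (rho_inj ρ h1)
  obtain ⟨κ, hκ⟩ : ∃ κ, B - h • D = κ • (pderiv p : W σ F) := by
    refine ⟨_, eq_smul_pderiv (p := p) ?_⟩
    intro j hj
    rw [Derivation.sub_apply, hBm _ (pderiv_X_of_ne hj), Derivation.smul_apply, smul_eq_mul,
      sub_self]
  have hκp : pderiv p κ = 0 := by
    have h1 : ⁅(pderiv p : W σ F), B - h • D⁆ = 0 := by
      rw [lie_sub'', hBp, lie_smul', hs.1, hD]
      simp
    rw [hκ, lie_smul', lie_self, smul_zero, add_zero] at h1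
    rcases smul_eq_zero' h1 with h | h
    · exact h
    · exact absurd h (pderiv_ne_zero p)
  -- `b_0 = x_p ∂_p`
  have hb1 : ρ ((X p : MvPolynomial σ F) • (pderiv p : W σ F)) s = 0 := by
    have h1 := congrArg ρ (lie_Xpderiv_smul (F := F) (p := p) hs.1)
    have h2 := congrArg ρ (lie_Xpderiv_smul (F := F) (p := p) (κ := 1) (by simp))
    rw [rho_lie, map_neg, one_smul] at h2
    rw [rho_lie, map_neg, ← hs.2, lie_smul', h2, smul_neg] at h1
    have h3 : (ρ ((X p : MvPolynomial σ F) • (pderiv p : W σ F)) s) • ρ (pderiv p) = 0 := by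
      simpa using h1
    rcases smul_eq_zero' h3 with h | h
    · exact h
    · exact absurd h (rho_ne_zero ρ p)
  have hb2 : ⁅(X p : MvPolynomial σ F) • (pderiv p : W σ F), B⁆ = 0 := by
    apply rho_inj ρ
    rw [rho_lie, hB, lie_smul', hb1, ← rho_lie, hD0, map_zero]
    simp
  have hb3 : ⁅(X p : MvPolynomial σ F) • (pderiv p : W σ F), B - h • D⁆ = 0 := by
    rw [lie_sub'', hb2, lie_smul', hD0, Derivation.smul_apply, hs.1]
    simp
  rw [hκ, lie_Xpderiv_smul hκp] at hb3
  have hb4 : B - h • D = 0 := by rw [hκ]; exact neg_eq_zero.1 hb3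
  rw [← hB, sub_eq_zero.1 hb4]

end Pool.Agent.Helper16_WX
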